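import Pool.Agent.W680.WH.Stm2
import Pool.Agent.W405.WH.DR

/-!
# Project WHH (MP_af71ff_an), part WHC-DRC: the derivative part is small for small `r`
-/

set_option autoImplicit false

open scoped ComplexConjugate InnerProductSpace
open ContinuousLinearMap

namespace Pool.Agent.W923.WH.DRC

open Pool.Agent.W680.WH

lemma om_add_le (n : ℤ) (k : ℕ) : om (n + k) ≤ 4 ^ k * om n ∧ om n ≤ 4 ^ k * om (n + k) := by
  induction k with
  | zero => simp
  | succ k ih =>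
    have h := om_ratio_le (n + k)
    have h1 : n + ((k + 1 : ℕ) : ℤ) = n + k + 1 := by push_cast; ring
    rw [h1]
    have p0 := om_pos (n + k)
    have p1 := om_pos (n + k + 1)
    have p2 : (0 : ℝ) < 4 ^ k := by positivity
    have p3 := mul_pos p2 (om_pos n)
    have p4 := mul_pos p2 p1
    constructor
    · calc om (n + k + 1) ≤ 3 * om (n + k) := h.1
        _ ≤ 3 * (4 ^ k * om n) := by linarith [ih.1]
        _ ≤ _ := by rw [pow_succ]; nlinarith
    · calc om n ≤ 4 ^ k * om (n + k) := ih.2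
        _ ≤ 4 ^ k * (3 * om (n + k + 1)) := by
            refine mul_le_mul_of_nonneg_left h.2 p2.le
        _ ≤ _ := by rw [pow_succ]; nlinarith

lemma sqrt_bound {x y : ℝ} (hy : 0 < y) (k : ℕ) (h : x ≤ 4 ^ k * y) :
    Real.sqrt (x / y) ≤ 2 ^ k := by
  rw [Real.sqrt_le_left (by positivity), div_le_iff₀ hy, ← pow_mul, mul_comm k 2, pow_mul]
  norm_num
  exact h

/-- the coefficients -/
noncomputable def cf (r : ℝ) (j : ℕ) (x : ℝ) : ℂ :=
  (-(r ^ (j + 1) / ((j + 1 : ℕ) : ℝ) * x) : ℝ)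

lemma cf_bound (r : ℝ) (hr : 0 ≤ r) (j : ℕ) (x : ℝ) (hx0 : 0 ≤ x) (hx : x ≤ 2 ^ (j + 1)) :
    ‖cf r j x‖ ≤ (2 * r) ^ (j + 1) := by
  unfold cf
  rw [Complex.norm_real, norm_neg, Real.norm_of_nonneg (by positivity), mul_pow, mul_comm]
  have h1 : r ^ (j + 1) / ((j + 1 : ℕ) : ℝ) ≤ r ^ (j + 1) :=
    div_le_self (by positivity) (by exact_mod_cast Nat.succ_le_succ (Nat.zero_le j))
  exact mul_le_mul hx h1 (by positivity) (by positivity)

/-- the upper part -/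
noncomputable def A (r : ℝ) (hr : 0 ≤ r) (j : ℕ) : E →L[ℂ] E :=
  wsh ((j + 1 : ℕ) : ℤ) (fun m => cf r j (Real.sqrt (om m / om (m - ((j + 1 : ℕ) : ℤ)))))
    ((2 * r) ^ (j + 1)) (fun m => cf_bound r hr j _ (Real.sqrt_nonneg _)
      (sqrt_bound (om_pos _) _ (by
        have := (om_add_le (m - ((j + 1 : ℕ) : ℤ)) (j + 1)).1
        rwa [sub_add_cancel] at this)))

/-- the lower part -/
noncomputable def B (r : ℝ) (hr : 0 ≤ r) (j : ℕ) : E →L[ℂ] E :=
  wsh (-((j + 1 : ℕ) : ℤ)) (fun m => cf r j (Real.sqrt (om m / om (m + ((j + 1 : ℕ) : ℤ)))))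
    ((2 * r) ^ (j + 1)) (fun m => cf_bound r hr j _ (Real.sqrt_nonneg _)
      (sqrt_bound (om_pos _) _ (om_add_le m (j + 1)).2))

lemma wsh_norm (k : ℤ) (c : ℤ → ℂ) (C : ℝ) (hc : ∀ n, ‖c n‖ ≤ C) : ‖wsh k c C hc‖ ≤ C :=
  LinearMap.mkContinuous_norm_le _ (le_trans (norm_nonneg _) (hc 0)) _

lemma A_norm (r : ℝ) (hr : 0 ≤ r) (j : ℕ) : ‖A r hr j‖ ≤ (2 * r) ^ (j + 1) := wsh_norm _ _ _ _
lemma B_norm (r : ℝ) (hr : 0 ≤ r) (j : ℕ) : ‖B r hr j‖ ≤ (2 * r) ^ (j + 1) := wsh_norm _ _ _ _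

lemma single_apply (n m : ℤ) : (lp.single 2 n (1 : ℂ) : E) m = if m = n then 1 else 0 := by
  by_cases h : m = n
  · subst h; simp
  · rw [if_neg h, lp.single_apply_ne _ _ _ h]

lemma A_single (r : ℝ) (hr : 0 ≤ r) (j : ℕ) (n m : ℤ) :
    (A r hr j (lp.single 2 n (1 : ℂ))) m =
      if m = n + ((j + 1 : ℕ) : ℤ) then cf r j (Real.sqrt (om m / om n)) else 0 := by
  unfold A
  rw [wsh_apply, single_apply]
  by_cases h : m = n + ((j + 1 : ℕ) : ℤ)
  · subst h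
    simp
  · rw [if_neg h, if_neg (by omega), mul_zero]

lemma B_single (r : ℝ) (hr : 0 ≤ r) (j : ℕ) (n m : ℤ) :
    (B r hr j (lp.single 2 n (1 : ℂ))) m =
      if n = m + ((j + 1 : ℕ) : ℤ) then cf r j (Real.sqrt (om m / om n)) else 0 := by
  unfold B
  rw [wsh_apply, single_apply]
  by_cases h : n = m + ((j + 1 : ℕ) : ℤ)
  · subst h
    rw [sub_neg_eq_add, if_pos rfl, if_pos rfl, mul_one]
  · rw [if_neg h, if_neg (by omega), mul_zero]

lemma norm_L (hopc : S_OPC) (r : ℝ) (hr : 0 ≤ r) (hr1 : r ≤ 1 / 4) (L : E →L[ℂ] E)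
    (hL : LogMat r L) : ‖L‖ ≤ 8 * r := by
  have hx0 : 0 ≤ 2 * r := by linarith
  have hx1 : 2 * r < 1 := by linarith
  have hg : HasSum (fun j : ℕ => 2 * ((2 * r) ^ (j + 1))) (2 * ((1 - 2 * r)⁻¹ * (2 * r))) := by
    have := ((hasSum_geometric_of_lt_one hx0 hx1).mul_right (2 * r)).mul_left 2
    simpa only [pow_succ] using this
  have hb : ∀ j : ℕ, ‖A r hr j + B r hr j‖ ≤ 2 * ((2 * r) ^ (j + 1)) := fun j => by
    have := norm_add_le (A r hr j) (B r hr j)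
    linarith [A_norm r hr j, B_norm r hr j]
  have hs : Summable fun j : ℕ => A r hr j + B r hr j :=
    Summable.of_norm_bounded hg.summable hb
  have hn := tsum_of_norm_bounded hg hb
  have heq : L = ∑' j : ℕ, (A r hr j + B r hr j) := by
    refine hopc.2.2.2.2.2.2.2.2.2.2.2.2.2.1 _ _ (fun n => ?_)
    have he : eb n = ((Real.sqrt (om n) : ℝ) : ℂ) • (lp.single 2 n (1 : ℂ) : E) := by
      unfold eb
      rw [← lp.single_smul]
      simp
    rw [he, map_smul, map_smul]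
    congr 1
    ext m
    rw [hL]
    have h1 : HasSum (fun j : ℕ => ((A r hr j + B r hr j) (lp.single 2 n (1 : ℂ)) : E) m)
        (((∑' j : ℕ, (A r hr j + B r hr j)) (lp.single 2 n (1 : ℂ)) : E) m) := by
      have h2 := (hs.hasSum.mapL (ContinuousLinearMap.apply ℂ E (lp.single 2 n (1 : ℂ) : E)))
      exact h2.mapL (lp.evalCLM ℂ (fun _ : ℤ => ℂ) 2 m)
    have h3 : ∀ j : ℕ, ((A r hr j + B r hr j) (lp.single 2 n (1 : ℂ)) : E) m =
        (if m = n + ((j + 1 : ℕ) : ℤ) then cf r j (Real.sqrt (om m / om n)) else 0) +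
        (if n = m + ((j + 1 : ℕ) : ℤ) then cf r j (Real.sqrt (om m / om n)) else 0) := by
      intro j
      rw [← A_single r hr j n m, ← B_single r hr j n m]
      rfl
    simp only [h3] at h1
    refine (h1.unique ?_).symm
    by_cases hmn : m = n
    · rw [if_pos hmn]
      have : ∀ j : ℕ, (if m = n + ((j + 1 : ℕ) : ℤ) then cf r j (Real.sqrt (om m / om n)) else 0) +
        (if n = m + ((j + 1 : ℕ) : ℤ) then cf r j (Real.sqrt (om m / om n)) else 0) = 0 := by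
        intro j
        rw [if_neg (by omega), if_neg (by omega), add_zero]
      simp only [this]
      exact hasSum_zero
    · rw [if_neg hmn]
      obtain ⟨j0, hj0⟩ : ∃ j0 : ℕ, (m - n).natAbs = j0 + 1 := ⟨(m - n).natAbs - 1, by omega⟩
      rw [hj0]
      have h4 : (((-(r ^ (j0 + 1) / ((j0 + 1 : ℕ) : ℝ) * Real.sqrt (om m / om n)) : ℝ)) : ℂ) =
        (if m = n + ((j0 + 1 : ℕ) : ℤ) then cf r j0 (Real.sqrt (om m / om n)) else 0) +
        (if n = m + ((j0 + 1 : ℕ) : ℤ) then cf r j0 (Real.sqrt (om m / om n)) else 0) := by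
        rcases lt_or_gt_of_ne hmn with h | h
        · rw [if_neg (by omega), if_pos (by omega), zero_add]; rfl
        · rw [if_pos (by omega), if_neg (by omega), add_zero]; rfl
      rw [h4]
      refine hasSum_single j0 (fun j hj => ?_)
      rw [if_neg (by omega), if_neg (by omega), add_zero]
  rw [heq]
  refine hn.trans ?_
  have h5 : (1 - 2 * r)⁻¹ ≤ 2 := by
    rw [inv_le_comm₀ (by linarith) (by norm_num)]
    linarith
  nlinarith

theorem main (hlog : S_LOG) (hopc : S_OPC) (hopa : S_OPA) (hinv : S_INV) (hopj : S_OPJ) :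
    S_DRC := by
  intro ε hε
  refine ⟨min (1 / 4) (ε / 8), lt_min (by norm_num) (by linarith),
    lt_of_le_of_lt (min_le_left _ _) (by norm_num), fun r hr0 hrd => ?_⟩
  have hr4 : r ≤ 1 / 4 := (hrd.trans_le (min_le_left _ _)).le
  have hre : r ≤ ε / 8 := (hrd.trans_le (min_le_right _ _)).le
  have hr1 : r < 1 := by linarith
  obtain ⟨L, hLm, hLZ, hLj, hLj', hcom⟩ := hlog r hr0 hr1
  have hLn := norm_L hopc r hr0 hr4 L hLm
  obtain ⟨⟨-, -, a1, a2⟩, -, -, -⟩ := hopa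
  have hneg := Pool.Agent.W405.WH.DR.jj_neg hopj
  obtain ⟨-, -, -, -, -, -, hja, hjs, -, -, -, -⟩ := hopj
  have hn : ‖(r : ℂ)‖ < 1 := by
    rw [Complex.norm_real, Real.norm_of_nonneg hr0]; exact hr1
  obtain ⟨uZ, -, uY, uS, -, -⟩ := hinv (r : ℂ) hn
  refine ⟨(1 / 2 : ℂ) • (L - adjoint L), ?_, ?_, ?_, ?_⟩
  · rw [map_smulₛₗ, map_sub, adjoint_adjoint]
    have : (starRingEnd ℂ) (1 / 2 : ℂ) = 1 / 2 := by
      rw [map_div₀, map_one, map_ofNat]
    rw [this, ← smul_neg, neg_sub]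
  · intro f
    have h1 : ((1 / 2 : ℂ) • (L - adjoint L)) f = (1 / 2 : ℂ) • (L f + -(adjoint L f)) := by
      rw [← sub_eq_add_neg]; rfl
    have h2 : ((1 / 2 : ℂ) • (L - adjoint L)) (jj f) =
        (1 / 2 : ℂ) • (L (jj f) + -(adjoint L (jj f))) := by
      rw [← sub_eq_add_neg]; rfl
    have h3 : (starRingEnd ℂ) (1 / 2 : ℂ) = 1 / 2 := by
      rw [map_div₀, map_one, map_ofNat]
    rw [h1, h2, hjs, hja, hneg, hLj, hLj', h3]
  · rw [norm_smul]
    have h1 : ‖(1 / 2 : ℂ)‖ = 1 / 2 := by norm_num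
    rw [h1]
    have h2 : ‖L - adjoint L‖ ≤ ‖L‖ + ‖L‖ := by
      have h3 : ‖adjoint L‖ = ‖L‖ := LinearIsometryEquiv.norm_map adjoint L
      calc ‖L - adjoint L‖ ≤ ‖L‖ + ‖adjoint L‖ := norm_sub_le _ _
        _ = _ := by rw [h3]
    linarith
  · intro G P P2 P2i hG hP hP2 hP2i
    have h := Pool.Agent.W405.WH.DR.main_alg (r : ℂ) Z Z2 Zs G (Ring.inverse (1 - (r : ℂ) • Z2))
      (Ring.inverse (1 - (r : ℂ) • Zs)) L (adjoint L) a1 a2
      (by rw [hG]; exact Ring.inverse_mul_cancel _ uZ) (by rw [hG]; exact Ring.mul_inverse_cancel _ uZ)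
      (Ring.inverse_mul_cancel _ uY) (Ring.mul_inverse_cancel _ uY)
      (Ring.inverse_mul_cancel _ uS) (Ring.mul_inverse_cancel _ uS) hLZ hcom
    rw [← hP, ← hP2, ← hP2i] at h
    have hX : X = -((2 : ℂ) • (Z - Z2) + (Z - Z2) * Zs * (Z - Z2)) := rfl
    rw [← hX] at h
    have h4 : ((1 - r ^ 2 : ℝ) : ℂ) = 1 - (r : ℂ) ^ 2 := by push_cast; ring
    rw [h4]
    exact h

end Pool.Agent.W923.WH.DRC

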